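import Pool.Agent.TH476.KStm2

/-!
# Dense host relations give dense layered relations
-/

set_option autoImplicit false

open Classical

namespace Pool.Agent.TH645.KK

open Pool.Agent.TH476 Pool.Agent.TH476.KK

section

variable {V : Type} [Fintype V]

/-- edges between `X` and `Y` -/
noncomputable def eXY (He : V → V → Prop) (X Y : Finset V) : ℕ :=
  (Finset.univ.filter (fun z : V × V => He z.1 z.2 ∧ z.1 ∈ X ∧ z.2 ∈ Y)).card

/-- the alternating layered relation -/
def Rl (He : V → V → Prop) (i : ℕ) (a b : V) : Prop := if i % 2 = 0 then He a b else He b a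

/-- the layers -/
noncomputable def Sl (X Y : Finset V) (i : ℕ) : Finset V := if i % 2 = 0 then X else Y

/-- walks of length `j` inside the layers -/
noncomputable def Wk (R : ℕ → V → V → Prop) (S : ℕ → Finset V) (j : ℕ) :
    Finset (Fin (j + 1) → V) :=
  Finset.univ.filter (fun p => (∀ i : Fin j, R i (p i.castSucc) (p i.succ)) ∧
    ∀ i : Fin (j + 1), p i ∈ S i)

lemma Wk_step (R : ℕ → V → V → Prop) (S : ℕ → Finset V) (j D q : ℕ)
    (h : ∀ a ∈ S j, D ≤ q * (Finset.univ.filter (fun c => R j a c ∧ c ∈ S (j + 1))).card) :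
    D * (Wk R S j).card ≤ q * (Wk R S (j + 1)).card := by
  have h1 : ∑ p ∈ Wk R S j, (Finset.univ.filter
      (fun c => R j (p (Fin.last j)) c ∧ c ∈ S (j + 1))).card ≤ (Wk R S (j + 1)).card := by
    rw [← Finset.card_sigma]
    refine Finset.card_le_card_of_injOn
      (fun x : (_ : Fin (j + 1) → V) × V => (Fin.snoc (α := fun _ => V) x.1 x.2 : Fin (j + 2) → V))
      ?_ ?_
    · rintro ⟨p, c⟩ hx
      have hx' := Finset.mem_sigma.mp (Finset.mem_coe.mp hx)
      obtain ⟨hp, hc⟩ := hx'
      have hp2 := (Finset.mem_filter.mp hp).2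
      have hc2 := (Finset.mem_filter.mp hc).2
      dsimp only at hp2 hc2
      refine Finset.mem_coe.mpr (Finset.mem_filter.mpr ⟨Finset.mem_univ _, ?_, ?_⟩)
      · intro i
        change R i ((Fin.snoc (α := fun _ => V) p c : Fin (j + 2) → V) i.castSucc)
          ((Fin.snoc (α := fun _ => V) p c : Fin (j + 2) → V) i.succ)
        refine Fin.lastCases ?_ (fun i' => ?_) i
        · rw [Fin.succ_last, Fin.snoc_castSucc (α := fun _ => V), Fin.snoc_last (α := fun _ => V)]
          exact hc2.1
        · rw [Fin.succ_castSucc, Fin.snoc_castSucc (α := fun _ => V),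
            Fin.snoc_castSucc (α := fun _ => V)]
          exact hp2.1 i'
      · intro i
        change (Fin.snoc (α := fun _ => V) p c : Fin (j + 2) → V) i ∈ S i
        refine Fin.lastCases ?_ (fun i' => ?_) i
        · rw [Fin.snoc_last (α := fun _ => V)]
          exact hc2.2
        · rw [Fin.snoc_castSucc (α := fun _ => V)]
          exact hp2.2 i'
    · rintro ⟨p, c⟩ _ ⟨p', c'⟩ _ he
      have he' : (Fin.snoc (α := fun _ => V) p c : Fin (j + 2) → V) =
        Fin.snoc (α := fun _ => V) p' c' := he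
      have e1 : p = p' := by
        funext i
        have := congrFun he' i.castSucc
        rwa [Fin.snoc_castSucc (α := fun _ => V), Fin.snoc_castSucc (α := fun _ => V)] at this
      have e2 : c = c' := by
        have := congrFun he' (Fin.last _)
        rwa [Fin.snoc_last (α := fun _ => V), Fin.snoc_last (α := fun _ => V)] at this
      subst e1 e2
      rfl
  calc D * (Wk R S j).card = ∑ p ∈ Wk R S j, D := by
        rw [Finset.sum_const, smul_eq_mul, mul_comm]
    _ ≤ ∑ p ∈ Wk R S j, q * (Finset.univ.filter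
        (fun c => R j (p (Fin.last j)) c ∧ c ∈ S (j + 1))).card := by
        refine Finset.sum_le_sum fun p hp => h _ ?_
        exact (Finset.mem_filter.mp hp).2.2 (Fin.last j)
    _ = q * ∑ p ∈ Wk R S j, (Finset.univ.filter
        (fun c => R j (p (Fin.last j)) c ∧ c ∈ S (j + 1))).card := by
        rw [Finset.mul_sum]
    _ ≤ _ := Nat.mul_le_mul_left _ h1

lemma Wk_all (R : ℕ → V → V → Prop) (S : ℕ → Finset V) (D q : ℕ) (n : ℕ)
    (h : ∀ j, ∀ a ∈ S j, D ≤ q * (Finset.univ.filter (fun c => R j a c ∧ c ∈ S (j + 1))).card) :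
    D ^ n * (S 0).card ≤ q ^ n * (Wk R S n).card := by
  induction n with
  | zero =>
    rw [pow_zero, pow_zero, one_mul, one_mul]
    refine Finset.card_le_card_of_injOn (fun v => fun _ => v) ?_ ?_
    · intro v hv
      refine Finset.mem_coe.mpr (Finset.mem_filter.mpr ⟨Finset.mem_univ _, fun i => i.elim0, ?_⟩)
      intro i
      have : (i : ℕ) = 0 := by omega
      rw [this]
      exact Finset.mem_coe.mp hv
    · intro v _ v' _ he
      exact congrFun he 0
  | succ n ih =>
    have h1 := Wk_step R S n D q (h n)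
    calc D ^ (n + 1) * (S 0).card = D * (D ^ n * (S 0).card) := by ring
      _ ≤ D * (q ^ n * (Wk R S n).card) := Nat.mul_le_mul_left _ ih
      _ = q ^ n * (D * (Wk R S n).card) := by ring
      _ ≤ q ^ n * (q * (Wk R S (n + 1)).card) := Nat.mul_le_mul_left _ h1
      _ = _ := by ring

lemma e_eraseL (He : V → V → Prop) (X Y : Finset V) (x : V) :
    eXY He X Y ≤ eXY He (X.erase x) Y +
      (Finset.univ.filter (fun c => He x c ∧ c ∈ Y)).card := by
  unfold eXY
  have h : (Finset.univ.filter (fun z : V × V => He z.1 z.2 ∧ z.1 ∈ X ∧ z.2 ∈ Y)) ⊆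
      (Finset.univ.filter (fun z : V × V => He z.1 z.2 ∧ z.1 ∈ X.erase x ∧ z.2 ∈ Y)) ∪
      (Finset.univ.filter (fun c => He x c ∧ c ∈ Y)).image (fun c => (x, c)) := by
    rintro ⟨a, b⟩ hz
    have hz2 := (Finset.mem_filter.mp hz).2
    by_cases ha : a = x
    · refine Finset.mem_union_right _ (Finset.mem_image.mpr ⟨b, ?_, ?_⟩)
      · refine Finset.mem_filter.mpr ⟨Finset.mem_univ _, ?_, hz2.2.2⟩
        have := hz2.1
        rw [ha] at this
        exact this
      · rw [ha]
    · refine Finset.mem_union_left _ (Finset.mem_filter.mpr ⟨Finset.mem_univ _, hz2.1, ?_,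
        hz2.2.2⟩)
      exact Finset.mem_erase.mpr ⟨ha, hz2.2.1⟩
  refine (Finset.card_le_card h).trans ((Finset.card_union_le _ _).trans ?_)
  exact Nat.add_le_add_left Finset.card_image_le _

lemma e_eraseR (He : V → V → Prop) (X Y : Finset V) (y : V) :
    eXY He X Y ≤ eXY He X (Y.erase y) +
      (Finset.univ.filter (fun c => He c y ∧ c ∈ X)).card := by
  unfold eXY
  have h : (Finset.univ.filter (fun z : V × V => He z.1 z.2 ∧ z.1 ∈ X ∧ z.2 ∈ Y)) ⊆
      (Finset.univ.filter (fun z : V × V => He z.1 z.2 ∧ z.1 ∈ X ∧ z.2 ∈ Y.erase y)) ∪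
      (Finset.univ.filter (fun c => He c y ∧ c ∈ X)).image (fun c => (c, y)) := by
    rintro ⟨a, b⟩ hz
    have hz2 := (Finset.mem_filter.mp hz).2
    by_cases hb : b = y
    · refine Finset.mem_union_right _ (Finset.mem_image.mpr ⟨a, ?_, ?_⟩)
      · refine Finset.mem_filter.mpr ⟨Finset.mem_univ _, ?_, hz2.2.1⟩
        have := hz2.1
        rw [hb] at this
        exact this
      · rw [hb]
    · refine Finset.mem_union_left _ (Finset.mem_filter.mpr ⟨Finset.mem_univ _, hz2.1,
        hz2.2.1, ?_⟩)
      exact Finset.mem_erase.mpr ⟨hb, hz2.2.2⟩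
  refine (Finset.card_le_card h).trans ((Finset.card_union_le _ _).trans ?_)
  exact Nat.add_le_add_left Finset.card_image_le _

lemma e_le (He : V → V → Prop) (X Y : Finset V) (B : ℕ)
    (h : ∀ x, (Finset.univ.filter (fun c => He x c)).card ≤ B) : eXY He X Y ≤ X.card * B := by
  unfold eXY
  have h1 : (Finset.univ.filter (fun z : V × V => He z.1 z.2 ∧ z.1 ∈ X ∧ z.2 ∈ Y)) ⊆
      X.biUnion (fun x => (Finset.univ.filter (fun c => He x c)).image (fun c => (x, c))) := by
    rintro ⟨a, b⟩ hz
    have hz2 := (Finset.mem_filter.mp hz).2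
    refine Finset.mem_biUnion.mpr ⟨a, hz2.2.1, Finset.mem_image.mpr ⟨b, ?_, rfl⟩⟩
    exact Finset.mem_filter.mpr ⟨Finset.mem_univ _, hz2.1⟩
  refine (Finset.card_le_card h1).trans (Finset.card_biUnion_le_card_mul _ _ _ fun x _ => ?_)
  exact Finset.card_image_le.trans (h x)

end

/-- `DEN` -/
theorem den_holds : S_DEN := by
  intro k K hK Q hQ
  refine ⟨(3 * Q) ^ (k + 2) * K, by positivity, ?_⟩
  intro V _ _ G D hG hD He hHe hgc
  obtain ⟨q, hq⟩ : ∃ q, q = 3 * Q := ⟨_, rfl⟩
  rw [← hq]
  -- the extremal pair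
  obtain ⟨⟨X, Y⟩, hmax⟩ := Finite.exists_max (fun z : Finset V × Finset V =>
    ((q : ℤ) * eXY He z.1 z.2 - (D : ℤ) * (z.1.card + z.2.card)))
  simp only [Prod.forall] at hmax
  have hX : ∀ x ∈ X, D ≤ q * (Finset.univ.filter (fun c => He x c ∧ c ∈ Y)).card := by
    intro x hx
    have h1 := hmax (X.erase x) Y
    have h2 := e_eraseL He X Y x
    have h3 := Finset.card_erase_add_one hx
    have h3' : ((X.erase x).card : ℤ) + 1 = X.card := by exact_mod_cast h3
    rw [← h3'] at h1
    have h2' : (eXY He X Y : ℤ) ≤ eXY He (X.erase x) Y +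
      (Finset.univ.filter (fun c => He x c ∧ c ∈ Y)).card := by exact_mod_cast h2
    have h4 : (q : ℤ) * eXY He X Y ≤ q * (eXY He (X.erase x) Y +
      (Finset.univ.filter (fun c => He x c ∧ c ∈ Y)).card) :=
      mul_le_mul_of_nonneg_left h2' (by positivity)
    have h5 : (D : ℤ) ≤ q * (Finset.univ.filter (fun c => He x c ∧ c ∈ Y)).card := by
      linarith
    exact_mod_cast h5
  have hY : ∀ y ∈ Y, D ≤ q * (Finset.univ.filter (fun c => He c y ∧ c ∈ X)).card := by
    intro y hy
    have h1 := hmax X (Y.erase y)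
    have h2 := e_eraseR He X Y y
    have h3 := Finset.card_erase_add_one hy
    have h3' : ((Y.erase y).card : ℤ) + 1 = Y.card := by exact_mod_cast h3
    rw [← h3'] at h1
    have h2' : (eXY He X Y : ℤ) ≤ eXY He X (Y.erase y) +
      (Finset.univ.filter (fun c => He c y ∧ c ∈ X)).card := by exact_mod_cast h2
    have h4 : (q : ℤ) * eXY He X Y ≤ q * (eXY He X (Y.erase y) +
      (Finset.univ.filter (fun c => He c y ∧ c ∈ X)).card) :=
      mul_le_mul_of_nonneg_left h2' (by positivity)
    have h5 : (D : ℤ) ≤ q * (Finset.univ.filter (fun c => He c y ∧ c ∈ X)).card := by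
      linarith
    exact_mod_cast h5
  -- the size of X
  have hgc' : eXY He Finset.univ Finset.univ = gc He := by
    unfold eXY gc
    congr 1
    ext z
    simp
  have hXc : Fintype.card V ≤ q * K * X.card := by
    have h1 := hmax Finset.univ Finset.univ
    rw [hgc'] at h1
    have h2 : Fintype.card V * D * 3 ≤ q * gc He := by
      rw [hq]
      calc Fintype.card V * D * 3 = 3 * (Fintype.card V * D) := by ring
        _ ≤ 3 * (Q * gc He) := Nat.mul_le_mul_left _ hgc
        _ = _ := by ring
    have h2' : (Fintype.card V : ℤ) * D * 3 ≤ q * gc He := by exact_mod_cast h2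
    rw [Finset.card_univ] at h1
    have h3 : (0 : ℤ) ≤ (D : ℤ) * (X.card + Y.card) := by positivity
    have h4 : (Fintype.card V : ℤ) * D ≤ q * eXY He X Y := by
      nlinarith
    have h4' : Fintype.card V * D ≤ q * eXY He X Y := by exact_mod_cast h4
    have h5 := e_le He X Y (K * D) (fun x => by
      refine le_trans (Finset.card_le_card ?_) (hG.hi x)
      intro c hc
      rw [mem_nb]
      exact hHe x c (Finset.mem_filter.mp hc).2)
    have h6 : Fintype.card V * D ≤ (q * K * X.card) * D := by
      calc Fintype.card V * D ≤ q * eXY He X Y := h4'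
        _ ≤ q * (X.card * (K * D)) := Nat.mul_le_mul_left _ h5
        _ = _ := by ring
    exact Nat.le_of_mul_le_mul_right h6 hD
  -- the relation
  refine ⟨Rl He, ?_, ?_⟩
  · intro i _ a b hab
    unfold Rl at hab
    by_cases hi : i % 2 = 0
    · rw [if_pos hi] at hab
      exact ⟨hHe a b hab, fun _ => hab, fun h => by omega⟩
    · rw [if_neg hi] at hab
      exact ⟨(hHe b a hab).symm, fun h => absurd h hi, fun _ => hab⟩
  · have hw := Wk_all (Rl He) (Sl X Y) D q (k + 1) (by
      intro j a ha
      unfold Sl at ha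
      by_cases hj : j % 2 = 0
      · rw [if_pos hj] at ha
        have hj' : ¬ (j + 1) % 2 = 0 := by omega
        have := hX a ha
        simp only [Rl, Sl, if_pos hj, if_neg hj']
        exact this
      · rw [if_neg hj] at ha
        have hj' : (j + 1) % 2 = 0 := by omega
        have := hY a ha
        simp only [Rl, Sl, if_neg hj, if_pos hj']
        exact this)
    have hS0 : Sl X Y 0 = X := by simp [Sl]
    rw [hS0] at hw
    have hWW : (Wk (Rl He) (Sl X Y) (k + 1)).card ≤ WW k (Rl He) := by
      unfold WW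
      refine Finset.card_le_card ?_
      intro p hp
      exact Finset.mem_filter.mpr ⟨Finset.mem_univ _, (Finset.mem_filter.mp hp).2.1⟩
    calc Fintype.card V * D ^ (k + 1) ≤ (q * K * X.card) * D ^ (k + 1) :=
          Nat.mul_le_mul_right _ hXc
      _ = q * K * (D ^ (k + 1) * X.card) := by ring
      _ ≤ q * K * (q ^ (k + 1) * WW k (Rl He)) :=
          Nat.mul_le_mul_left _ (hw.trans (Nat.mul_le_mul_left _ hWW))
      _ = _ := by ring

end Pool.Agent.TH645.KK
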